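import Mathlib
import Pool.Agent.Hhelper85.TateDefs
import Pool.Agent.Hhelper85.UCrel

/-!
# The universal elliptic curve with `r` marked points over an arbitrary finitely generated base
-/

namespace Pool.Agent.Results.MP_9faec4_nt.AnyBase

open Pool.Agent.TateBSD

/-- **The universal elliptic curve with `r` marked points over any finitely generated domain in
which `6` is invertible.** -/
theorem result (R₀ : Type) [CommRing R₀] [IsDomain R₀] [Algebra.FiniteType ℤ R₀]
    (h6 : IsUnit (6 : R₀)) (r : ℕ) :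
    (∀ (K : Type) [Field K] [DecidableEq K] [Algebra (universal R₀ r).R K]
      [IsFractionRing (universal R₀ r).R K],
      Module.rank ℤ ((universal R₀ r).curve.map
        (algebraMap (universal R₀ r).R K)).toAffine.Point = r) ∧
    ∀ d : ℝ, 0 ≤ d →
      (∀ σ : ℝ, d < σ → Summable fun m : MaximalSpectrum R₀ => (qy m : ℝ) ^ (-σ)) →
      (∃ H : ℂ → ℂ, DifferentiableOn ℂ H {s : ℂ | d + r + 1 < s.re} ∧
        ∀ s : ℂ, d + r + 5 / 2 < s.re →
          HasProd (fun m : MaximalSpectrum (universal R₀ r).R =>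
            localFactor (universal R₀ r).curve m s)
            (Complex.exp (H s) *
              ((∏' m : MaximalSpectrum R₀, (1 - (qy m : ℂ) ^ (-(s - (r + 2))))⁻¹) ^ r)⁻¹)) ∧
      ∀ (ε : ℝ) (Z : ℂ → ℂ), 0 < ε → ε ≤ 1 → MeromorphicOn Z {s : ℂ | d - ε < s.re} →
        (∀ s : ℂ, d < s.re →
          HasProd (fun m : MaximalSpectrum R₀ => (1 - (qy m : ℂ) ^ (-s))⁻¹) (Z s)) →
        ∃ Φ : ℂ → ℂ, MeromorphicOn Φ {s : ℂ | d + r + 2 - ε < s.re} ∧
          (∀ s : ℂ, d + r + 5 / 2 < s.re →
            HasProd (fun m : MaximalSpectrum (universal R₀ r).R =>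
              localFactor (universal R₀ r).curve m s) (Φ s)) ∧
          meromorphicOrderAt Φ ((d : ℂ) + r + 2) = -(r * meromorphicOrderAt Z (d : ℂ)) := by
  refine ⟨?_, ?_⟩
  · intro K _ _ _ _
    rw [Hhelper85.curve_map]
    exact (rankGood_universal R₀ (Hhelper85.six_units h6).1.ne_zero
      (Hhelper85.six_units h6).2.ne_zero r).rank K
  · intro d hd0 hd
    refine ⟨⟨Hhelper85.HH R₀ r, Hhelper85.differentiableOn_HH h6
      (Hhelper85.hd' h6 hd0 hd) r, ?_⟩, ?_⟩
    · intro s hs
      have h2 : d < (s - ((r : ℂ) + 2)).re := by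
        simp only [Complex.sub_re, Complex.add_re, Complex.natCast_re, Complex.re_ofNat]
        linarith
      have h3 := Hhelper85.hasProd_LZ (R₀ := R₀) (s := s - (r + 2)) (by linarith) (hd _ h2)
      exact Hhelper85.rel_factor h6 hd0 hd r hs h3.multipliable.hasProd
    · intro ε Z hε hε1 hZm hZ
      exact Hhelper85.rel_continuation h6 hd0 hd r hε1 hZm hε hZ

end Pool.Agent.Results.MP_9faec4_nt.AnyBase
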