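import Mathlib
import Pool.Agent.Hhelper85.MarkDefs
import Pool.Agent.Hhelper85.MarkFinal

/-!
# Tate's conjecture for an elliptic curve over the function fields of its powers
-/

namespace Pool.Agent.Results.MP_9faec4_nt.MarkedPoints

open Pool.Agent.TateBSD

/-- Rank and order of vanishing when `r` generic points of the curve are adjoined to the base. -/
theorem result (S : CubicRing) [IsDomain S.R] [Algebra.FiniteType ℤ S.R]
    (h2 : IsUnit (2 : S.R)) (hΔ : IsUnit S.curve.Δ)
    (K : Type) [Field K] [DecidableEq K] [Algebra S.R K] [IsFractionRing S.R K]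
    (hno : ∀ x : K, x ^ 3 + algebraMap S.R K S.a * x ^ 2 + algebraMap S.R K S.b * x
      + algebraMap S.R K S.c ≠ 0)
    (hsq : ¬ IsSquare (algebraMap S.R K S.curve.Δ)) (r : ℕ) :
    (∀ (M : Type) [Field M] [DecidableEq M] [Algebra (S.mark r).R M]
      [IsFractionRing (S.mark r).R M],
      Module.rank ℤ ((S.mark r).curve.map (algebraMap (S.mark r).R M)).toAffine.Point
        = Module.rank ℤ (S.curve.map (algebraMap S.R K)).toAffine.Point + r) ∧
    ∀ d : ℝ, 0 ≤ d →
      (∀ σ : ℝ, d < σ → Summable fun m : MaximalSpectrum S.R => (qy m : ℝ) ^ (-σ)) →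
      (∃ H : ℂ → ℂ, DifferentiableOn ℂ H {s : ℂ | d + r - 1 / 2 < s.re} ∧
        ∀ s : ℂ, d + r + 1 / 2 < s.re →
          Multipliable (fun m : MaximalSpectrum S.R => localFactor S.curve m (s - r)) ∧
          Multipliable (fun m : MaximalSpectrum S.R => localFactorTwo S.curve m (s - r + 1)) ∧
          HasProd (fun m : MaximalSpectrum (S.mark r).R => localFactor (S.mark r).curve m s)
            (Complex.exp (H s) * (∏' m : MaximalSpectrum S.R, localFactor S.curve m (s - r)) *
              ((∏' m : MaximalSpectrum S.R, localFactorTwo S.curve m (s - r + 1)) ^ r)⁻¹)) ∧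
      ∀ (ε : ℝ) (A B : ℂ → ℂ), 0 < ε → ε ≤ 1 / 2 →
        MeromorphicOn A {s : ℂ | d - ε < s.re} →
        (∀ s : ℂ, d + 1 / 2 < s.re →
          HasProd (fun m : MaximalSpectrum S.R => localFactor S.curve m s) (A s)) →
        MeromorphicOn B {s : ℂ | d + 1 - ε < s.re} →
        (∀ s : ℂ, d + 1 < s.re →
          HasProd (fun m : MaximalSpectrum S.R => localFactorTwo S.curve m s) (B s)) →
        ∃ Φ : ℂ → ℂ, MeromorphicOn Φ {s : ℂ | d + r - ε < s.re} ∧
          (∀ s : ℂ, d + r + 1 / 2 < s.re →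
            HasProd (fun m : MaximalSpectrum (S.mark r).R =>
              localFactor (S.mark r).curve m s) (Φ s)) ∧
          meromorphicOrderAt Φ ((d : ℂ) + r)
            = meromorphicOrderAt A (d : ℂ) + -(r * meromorphicOrderAt B ((d : ℂ) + 1)) := by
  have hS := Hhelper85.goodRing_of S h2 hΔ K hno hsq
  refine ⟨?_, ?_⟩
  · intro M _ _ _ _
    rw [Hhelper85.curve_map3, Hhelper85.curve_map3]
    exact Hhelper85.rank_mark hS K r M
  · intro d hd0 hz
    refine ⟨⟨Hhelper85.HM S r, Hhelper85.differentiableOn_HM hS hd0 hz r,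
      fun s hs => Hhelper85.mark_product hS hd0 hz r hs⟩, ?_⟩
    intro ε A B hε hε1 hAm hA hBm hB
    exact Hhelper85.mark_continuation hS hd0 hz r hε hε1 hAm hA hBm hB

end Pool.Agent.Results.MP_9faec4_nt.MarkedPoints
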