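import Mathlib
import Pool.Agent.Hhelper85.TateDefs
import Pool.Agent.Hhelper85.UCmain

/-!
# Tate's Birch and Swinnerton-Dyer conjecture for the universal elliptic curve with `r` marked
points over `ℚ`
-/

namespace Pool.Agent.Results.MP_9faec4_nt.UniversalCurve

open Pool.Agent.TateBSD

/-- **Tate's conjecture for the universal elliptic curve with `r` marked points over `ℚ`.** -/
theorem result (N : ℕ) (hN : N ≠ 0) (h6 : 6 ∣ N) (r : ℕ) :
    IsDomain (universal (Localization.Away (N : ℤ)) r).R ∧
    (∃ Φ : ℂ → ℂ, MeromorphicOn Φ {s : ℂ | (r : ℝ) + 2 < s.re} ∧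
      (∀ s : ℂ, (r : ℝ) + 7 / 2 < s.re →
        HasProd (fun m : MaximalSpectrum (universal (Localization.Away (N : ℤ)) r).R =>
          localFactor (universal (Localization.Away (N : ℤ)) r).curve m s) (Φ s)) ∧
      meromorphicOrderAt Φ ((r : ℂ) + 3) = r) ∧
    ∀ (K : Type) [Field K] [DecidableEq K]
      [Algebra (universal (Localization.Away (N : ℤ)) r).R K]
      [IsFractionRing (universal (Localization.Away (N : ℤ)) r).R K],
      Module.rank ℤ ((universal (Localization.Away (N : ℤ)) r).curve.map
        (algebraMap (universal (Localization.Away (N : ℤ)) r).R K)).toAffine.Point = r := by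
  have hR := Hhelper85.universal_ZN hN h6 r
  refine ⟨hR.dom, ⟨Hhelper85.Phi N r, fun s hs => Hhelper85.meromorphicAt_Phi hN h6 r hs,
    fun s hs => Hhelper85.hasProd_Phi hN h6 r hs, Hhelper85.order_Phi hN h6 r⟩, ?_⟩
  intro K _ _ _ _
  rw [Hhelper85.curve_map]
  exact hR.rank K

end Pool.Agent.Results.MP_9faec4_nt.UniversalCurve
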